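import Pool.Agent.N408.IB.Stm

/-!
# IB/REG1: the function `st` is `C^{1,1}` (helper225 for helper408)
-/

set_option autoImplicit false

open Real Set MeasureTheory IB408 Filter Topology

namespace N225.IB.REG1

lemma second_diff (f f' : ℝ → ℝ) (L : ℝ) (hf : ∀ x, HasDerivAt f (f' x) x)
    (hL : ∀ x y, |f' x - f' y| ≤ L * |x - y|) (x d : ℝ) :
    |f (x + d) + f (x - d) - 2 * f x| ≤ L * d ^ 2 := by
  have key : ∀ d, 0 ≤ d → |f (x + d) + f (x - d) - 2 * f x| ≤ L * d ^ 2 := by
    intro d hd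
    have hφ : ∀ s, HasDerivAt (fun s => f (x + s) + f (x - s) - 2 * f x)
        (f' (x + s) - f' (x - s)) s := by
      intro s
      have h1 : HasDerivAt (fun s => f (x + s)) (f' (x + s)) s := (hf (x + s)).comp_const_add x s
      have h2 : HasDerivAt (fun s => f (x - s)) (-f' (x - s)) s := (hf (x - s)).comp_const_sub x s
      have h3 := (h1.add h2).sub_const (2 * f x)
      rw [← sub_eq_add_neg] at h3
      exact h3
    have hB : ∀ s, HasDerivAt (fun s => L * s ^ 2) (2 * L * s) s := by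
      intro s
      have := (hasDerivAt_pow 2 s).const_mul L
      refine this.congr_deriv ?_
      norm_num
      ring
    have := image_norm_le_of_norm_deriv_right_le_deriv_boundary (a := 0) (b := d)
      (f := fun s => f (x + s) + f (x - s) - 2 * f x) (f' := fun s => f' (x + s) - f' (x - s))
      (fun s _ => (hφ s).continuousAt.continuousWithinAt)
      (fun s _ => (hφ s).hasDerivWithinAt) (B := fun s => L * s ^ 2) (B' := fun s => 2 * L * s)
      (by simp; ring_nf) hB ?_ (right_mem_Icc.2 hd)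
    · simpa [Real.norm_eq_abs] using this
    · intro s hs
      rw [Real.norm_eq_abs]
      refine (hL _ _).trans (le_of_eq ?_)
      rw [show x + s - (x - s) = 2 * s by ring, abs_mul, abs_of_nonneg hs.1, abs_two]
      ring
  rcases le_total 0 d with h | h
  · exact key d h
  · have := key (-d) (by linarith)
    rw [neg_sq, ← sub_eq_add_neg, sub_neg_eq_add] at this
    rw [add_comm (f (x + d))]
    exact this

lemma clamp_lip (a x y : ℝ) :
    |max 0 (min x a) - max 0 (min y a)| ≤ |x - y| := by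
  refine (abs_max_sub_max_le_max _ _ _ _).trans ?_
  rw [sub_self, abs_zero, max_eq_right (abs_nonneg _)]
  refine (abs_min_sub_min_le_max _ _ _ _).trans ?_
  rw [sub_self, abs_zero, max_eq_left (abs_nonneg _)]

lemma clamp_mem {a : ℝ} (ha : 0 < a) (x : ℝ) : max 0 (min x a) ∈ Icc 0 a :=
  ⟨le_max_left _ _, max_le ha.le (min_le_right _ _)⟩

lemma clamp_deriv (s D : ℝ → ℝ) (a : ℝ) (ha : 0 < a) (hs : ∀ g ∈ Icc 0 a, HasDerivAt s (D g) g)
    (h0 : D 0 = 0) (h1 : D a = 0) (x : ℝ) :
    HasDerivAt (fun x => s (max 0 (min x a))) (D (max 0 (min x a))) x := by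
  by_cases hx : x ∈ Ioo 0 a
  · have e : ∀ y ∈ Ioo 0 a, max 0 (min y a) = y := fun y hy => by
      rw [min_eq_left hy.2.le, max_eq_right hy.1.le]
    rw [e x hx]
    refine (hs x (Ioo_subset_Icc_self hx)).congr_of_eventuallyEq ?_
    filter_upwards [Ioo_mem_nhds hx.1 hx.2] with y hy
    rw [e y hy]
  · have hD : D (max 0 (min x a)) = 0 := by
      rcases le_or_gt x 0 with h | h
      · rw [min_eq_left (h.trans ha.le), max_eq_left h, h0]
      · have : a ≤ x := by
          by_contra h2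
          exact hx ⟨h, not_le.1 h2⟩
        rw [min_eq_right this, max_eq_right ha.le, h1]
    rw [hD]
    have h2 := hs _ (clamp_mem ha x)
    rw [hD, hasDerivAt_iff_isLittleO] at h2
    rw [hasDerivAt_iff_isLittleO]
    simp only [smul_zero, sub_zero] at h2 ⊢
    have hc : Tendsto (fun x => max 0 (min x a)) (𝓝 x) (𝓝 (max 0 (min x a))) :=
      (continuous_const.max (continuous_id.min continuous_const)).continuousAt
    refine (h2.comp_tendsto hc).trans_isBigO ?_
    refine Asymptotics.IsBigO.of_bound 1 (Eventually.of_forall fun y => ?_)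
    rw [one_mul, Real.norm_eq_abs, Real.norm_eq_abs]
    exact clamp_lip a y x

/-- the integral -/
noncomputable def F (q : ℝ → ℝ) (g : ℝ) : ℝ := ∫ θ in g..al, (Pcap q θ - 1) * sin θ

noncomputable def s (q : ℝ → ℝ) (g : ℝ) : ℝ := cos g / (cos g + F q g) - 1

noncomputable def N (q : ℝ → ℝ) (g : ℝ) : ℝ := -F q g + cos g * (Pcap q g - 1)

noncomputable def D (q : ℝ → ℝ) (g : ℝ) : ℝ := sin g * N q g * ((cos g + F q g) ^ 2)⁻¹

lemma F_deriv (q : ℝ → ℝ) (hq : Continuous (Pcap q)) (g : ℝ) :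
    HasDerivAt (F q) (-((Pcap q g - 1) * sin g)) g := by
  have hc : Continuous fun θ => (Pcap q θ - 1) * sin θ := (hq.sub continuous_const).mul continuous_sin
  have h := (hc.integral_hasStrictDerivAt al g).hasDerivAt.neg
  refine h.congr_of_eventuallyEq (Eventually.of_forall fun x => ?_)
  exact intervalIntegral.integral_symm _ _

lemma s_deriv (q : ℝ → ℝ) (hq : Continuous (Pcap q)) (g : ℝ) (hg : cos g + F q g ≠ 0) :
    HasDerivAt (s q) (D q g) g := by
  have h1 := (hasDerivAt_cos g).div ((hasDerivAt_cos g).add (F_deriv q hq g)) hg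
  have h2 := h1.sub_const 1
  refine h2.congr_deriv ?_
  unfold D N
  rw [div_eq_mul_inv]
  congr 1
  simp only [Pi.add_apply]
  ring

lemma st_eq (q : ℝ → ℝ) (hal : 0 < al) (γ : ℝ) :
    st q γ = s q (max 0 (min γ al)) + s q (max 0 (min (-γ) al)) - s q 0 := by
  have h : st q γ = s q (min |γ| al) := rfl
  rw [h]
  rcases le_total 0 γ with h1 | h1
  · rw [abs_of_nonneg h1, max_eq_right (le_min h1 hal.le),
      max_eq_left ((min_le_left (-γ) al).trans (by linarith))]
    ring
  · rw [abs_of_nonpos h1, max_eq_left ((min_le_left γ al).trans h1),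
      max_eq_right (le_min (by linarith) hal.le)]
    ring

lemma mul_bd {a b A B : ℝ} (ha : |a| ≤ A) (hb : |b| ≤ B) : |a * b| ≤ A * B := by
  rw [abs_mul]
  exact mul_le_mul ha hb (abs_nonneg _) ((abs_nonneg _).trans ha)

lemma sin_lip (x y : ℝ) : |sin x - sin y| ≤ |x - y| := by
  have := convex_univ.norm_image_sub_le_of_norm_hasDerivWithin_le (f := sin) (f' := cos) (C := 1)
    (fun x _ => (hasDerivAt_sin x).hasDerivWithinAt)
    (fun x _ => by rw [Real.norm_eq_abs]; exact abs_cos_le_one x) (mem_univ y) (mem_univ x)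
  simpa [Real.norm_eq_abs] using this

lemma cos_lip (x y : ℝ) : |cos x - cos y| ≤ |x - y| := by
  have := convex_univ.norm_image_sub_le_of_norm_hasDerivWithin_le (f := cos)
    (f' := fun x => -sin x) (C := 1)
    (fun x _ => (hasDerivAt_cos x).hasDerivWithinAt)
    (fun x _ => by rw [Real.norm_eq_abs, abs_neg]; exact abs_sin_le_one x) (mem_univ y) (mem_univ x)
  simpa [Real.norm_eq_abs] using this

/-- the main estimate -/
lemma D_lip (q : ℝ → ℝ) (B : ℝ) (hB : 0 < B) (hB1 : B ≤ 1 / 10) (a : ℝ) (_ha : 0 < a) (ha2 : a ≤ 1 / 100)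
    (hPc : Continuous (Pcap q)) (hPb : ∀ g, |Pcap q g - 1| ≤ B / 100)
    (hPl : ∀ x y, |Pcap q x - Pcap q y| ≤ B * |x - y|)
    (hFb : ∀ g ∈ Icc 0 a, |F q g| ≤ B / 100) :
    (∀ g ∈ Icc 0 a, cos g + F q g ≠ 0) ∧
    ∀ x ∈ Icc 0 a, ∀ y ∈ Icc 0 a, |D q x - D q y| ≤ B / 2 * |x - y| := by
  have hsin : ∀ g ∈ Icc 0 a, |sin g| ≤ 1 / 100 := fun g hg => by
    have h := sin_lip g 0
    rw [sin_zero, sub_zero, sub_zero, abs_of_nonneg hg.1] at h
    linarith [hg.2]
  have hcos : ∀ g ∈ Icc 0 a, 9 / 10 ≤ cos g := fun g hg => by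
    have h := one_sub_sq_div_two_le_cos (x := g)
    nlinarith [hg.1, hg.2]
  have hd1 : ∀ g ∈ Icc 0 a, 8 / 10 ≤ cos g + F q g := fun g hg => by
    have h1 := hcos g hg
    have h2 := abs_le.1 (hFb g hg)
    linarith [h2.1]
  have hd2 : ∀ g ∈ Icc 0 a, cos g + F q g ≤ 11 / 10 := fun g hg => by
    have h1 := cos_le_one g
    have h2 := abs_le.1 (hFb g hg)
    linarith [h2.2]
  have hFl : ∀ x y, |F q x - F q y| ≤ B / 100 * |x - y| := fun x y => by
    have := convex_univ.norm_image_sub_le_of_norm_hasDerivWithin_le (f := F q)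
      (f' := fun g => -((Pcap q g - 1) * sin g)) (C := B / 100)
      (fun x _ => (F_deriv q hPc x).hasDerivWithinAt)
      (fun x _ => by
        rw [Real.norm_eq_abs, abs_neg]
        exact (mul_bd (hPb x) (abs_sin_le_one x)).trans (by rw [mul_one])) (mem_univ y) (mem_univ x)
    simpa [Real.norm_eq_abs] using this
  have hN : ∀ g ∈ Icc 0 a, |N q g| ≤ B / 50 := fun g hg => by
    unfold N
    refine (abs_add_le _ _).trans ?_
    rw [abs_neg]
    have h1 := hFb g hg
    have h2 := mul_bd (abs_cos_le_one g) (hPb g)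
    linarith
  have hNl : ∀ x y, |N q x - N q y| ≤ 2 * B * |x - y| := fun x y => by
    have e : N q x - N q y = -(F q x - F q y) + ((cos x - cos y) * (Pcap q x - 1) +
        cos y * (Pcap q x - Pcap q y)) := by unfold N; ring
    rw [e]
    refine (abs_add_le _ _).trans ?_
    have h1 := hFl x y
    have h2 := mul_bd (cos_lip x y) (hPb x)
    have h3 := mul_bd (abs_cos_le_one y) (hPl x y)
    have h4 := abs_add_le ((cos x - cos y) * (Pcap q x - 1)) (cos y * (Pcap q x - Pcap q y))
    rw [abs_neg]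
    nlinarith [abs_nonneg (x - y), mul_nonneg hB.le (abs_nonneg (x - y))]
  have hR : ∀ g ∈ Icc 0 a, |((cos g + F q g) ^ 2)⁻¹| ≤ 2 := fun g hg => by
    have h1 := hd1 g hg
    rw [abs_of_nonneg (by positivity)]
    rw [inv_le_comm₀ (by positivity) (by norm_num)]
    nlinarith
  have hRl : ∀ x ∈ Icc 0 a, ∀ y ∈ Icc 0 a,
      |((cos x + F q x) ^ 2)⁻¹ - ((cos y + F q y) ^ 2)⁻¹| ≤ 20 * |x - y| := by
    intro x hx y hy
    have h1 := hd1 x hx
    have h2 := hd1 y hy
    have e : ((cos x + F q x) ^ 2)⁻¹ - ((cos y + F q y) ^ 2)⁻¹ =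
        ((-(cos x - cos y) - (F q x - F q y)) * ((cos x + F q x) + (cos y + F q y))) *
        (((cos x + F q x) ^ 2)⁻¹ * ((cos y + F q y) ^ 2)⁻¹) := by
      have n1 : cos x + F q x ≠ 0 := by linarith
      have n2 : cos y + F q y ≠ 0 := by linarith
      field_simp
      ring
    rw [e]
    have g1 : |-(cos x - cos y) - (F q x - F q y)| ≤ 11 / 10 * |x - y| := by
      have k1 := cos_lip x y
      have k2 := hFl x y
      have k3 := abs_sub (-(cos x - cos y)) (F q x - F q y)
      rw [abs_neg] at k3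
      nlinarith [abs_nonneg (x - y), mul_nonneg hB.le (abs_nonneg (x - y))]
    have g2 : |(cos x + F q x) + (cos y + F q y)| ≤ 22 / 10 := by
      have k1 := hd2 x hx
      have k2 := hd2 y hy
      rw [abs_of_nonneg (by linarith)]
      linarith
    have g3 := mul_bd (mul_bd g1 g2) (mul_bd (hR x hx) (hR y hy))
    refine g3.trans ?_
    nlinarith [abs_nonneg (x - y)]
  refine ⟨fun g hg => by have := hd1 g hg; linarith, fun x hx y hy => ?_⟩
  have e : D q x - D q y = (sin x - sin y) * N q x * ((cos x + F q x) ^ 2)⁻¹ +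
      (sin y * (N q x - N q y) * ((cos x + F q x) ^ 2)⁻¹ +
      sin y * N q y * (((cos x + F q x) ^ 2)⁻¹ - ((cos y + F q y) ^ 2)⁻¹)) := by
    unfold D
    ring
  rw [e]
  have t1 := mul_bd (mul_bd (sin_lip x y) (hN x hx)) (hR x hx)
  have t2 := mul_bd (mul_bd (hsin y hy) (hNl x y)) (hR x hx)
  have t3 := mul_bd (mul_bd (hsin y hy) (hN y hy)) (hRl x hx y hy)
  refine (abs_add_le _ _).trans ((add_le_add t1 ((abs_add_le _ _).trans (add_le_add t2 t3))).trans ?_)
  have k : 0 ≤ B * |x - y| := mul_nonneg hB.le (abs_nonneg _)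
  nlinarith

theorem t (_h1 : S_L1) (h2 : S_ODD1) (h3 : S_BAS1) : IB408.S_REG1 := by
  intro q hq hP γ δ
  obtain ⟨⟨a1, a2, -⟩, -⟩ := h2
  obtain ⟨-, hPc, hPb, hPl, -, -, -, -, -, hI, -⟩ := h3 q hq
  have hb : (0 : ℝ) < IB408.b := by unfold IB408.b; norm_num
  have hb1 : IB408.b = 1 / 1000000 := rfl
  have hal : 0 < al := lt_of_lt_of_le hb a1
  have hal2 : al ≤ 1 / 100 := a2.trans (by rw [hb1]; norm_num)
  have hF : ∀ g ∈ Icc 0 al, F q g = Pint q g := fun g hg => by
    have : Pint q g = F q (min |g| al) := rfl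
    rw [this, abs_of_nonneg hg.1, min_eq_left hg.2]
  obtain ⟨hne, hlip⟩ := D_lip q IB408.b hb (by rw [hb1]; norm_num) al hal hal2 hPc
    (fun g => (hPb g).trans (by rw [hb1]; norm_num)) hPl
    (fun g hg => by rw [hF g hg]; exact (hI g).trans (by rw [hb1]; norm_num))
  have hs : ∀ g ∈ Icc 0 al, HasDerivAt (s q) (D q g) g := fun g hg => s_deriv q hPc g (hne g hg)
  have hD0 : D q 0 = 0 := by unfold D; rw [sin_zero, zero_mul, zero_mul]
  have hDa : D q al = 0 := by
    have e1 : F q al = 0 := intervalIntegral.integral_same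
    unfold D N
    rw [hP, e1]
    ring
  have hT := second_diff (fun x => s q (max 0 (min x al))) (fun x => D q (max 0 (min x al)))
    (IB408.b / 2) (clamp_deriv (s q) (D q) al hal hs hD0 hDa) (fun x y =>
      (hlip _ (clamp_mem hal x) _ (clamp_mem hal y)).trans
        (mul_le_mul_of_nonneg_left (clamp_lip al x y) (by positivity)))
  have t1 := hT γ δ
  have t2 := hT (-γ) δ
  rw [st_eq q hal (γ + δ), st_eq q hal (γ - δ), st_eq q hal γ]
  rw [show -(γ + δ) = -γ - δ by ring, show -(γ - δ) = -γ + δ by ring]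
  rw [abs_le] at t1 t2 ⊢
  constructor <;> linarith [t1.1, t1.2, t2.1, t2.2]

end N225.IB.REG1
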